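import Pool.Agent.P8H40.PL.Stm
import Pool.Agent.P8H40.CY.Sets

/-!
# Polylogarithms at the points of a separated set: the core
-/

set_option autoImplicit false

open PowerSeries Module Pool.Agent.Y113 Pool.Agent.Y120.GF Pool.Agent.Y120.GH

namespace Pool.Agent.P8H40.PL

open Pool.Agent.P8H40.SE Pool.Agent.Y124.TL

lemma gsys_reindex {ι κ : Type} [Fintype ι] [Fintype κ] (e : κ ≃ ι) {q : ℕ} {C : ℝ} {T : Polynomial ℤ} {y : ι → ℚ⟦X⟧}
    (h : GSys q C T y) : GSys q C T (fun k => y (e k)) := by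
  refine ⟨h.one_le, h.degT, h.sizeT, fun i m => h.size (e i) m, fun m => ?_, fun k => ?_⟩
  · obtain ⟨d, h1, h2, h3⟩ := h.den m
    exact ⟨d, h1, h2, fun i j hj => h3 (e i) j hj⟩
  · obtain ⟨g, h0, h1, h2⟩ := h.der k
    refine ⟨g, h0, h1, fun s hs => ?_⟩
    obtain ⟨G, a, b, c⟩ := h2 s hs
    exact ⟨fun i j => G (e i) (e j), fun i j => a _ _, fun i j l => b _ _ l, fun i => by
      rw [c (e i)]
      exact (e.sum_comp (fun j => ps (G (e i) j) * y j)).symm⟩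

lemma qu_reindex {ι κ : Type} [Fintype ι] [Fintype κ] [DecidableEq ι] [DecidableEq κ] (e : κ ≃ ι) {T : Polynomial ℤ}
    {A : ι → ι → Polynomial ℤ} (h : QU0 T A) : QU0 T (fun i j => A (e i) (e j)) := by
  obtain ⟨n, hn, M, K, Φ, h1, h2, h3⟩ := h
  refine ⟨n, hn, M, K, Φ.submatrix e e, fun i j k m => h1 _ _ k m, fun i j k => ?_, ?_⟩
  · have := h2 (e i) (e j) k
    simp only [Matrix.submatrix_apply]
    rw [this]
    congr 1
    exact (e.sum_comp (fun l => expand n hn (((A (e i) l).map (Int.castRingHom ℂ) : Polynomial ℂ) : PowerSeries ℂ) *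
        (Φ l (e j)).coeff k)).symm
  · rw [Matrix.det_submatrix_equiv_self]
    exact h3

lemma pr_ne {n : ℕ} (α : Fin n → ℤ) (s : Finset (Fin n)) : pr α s ≠ 0 := by
  unfold pr
  refine Finset.prod_ne_zero_iff.2 fun i _ h => ?_
  have h1 := congrArg (Polynomial.eval 0) h
  simp at h1

lemma TT_ne {n : ℕ} (α : Fin n → ℤ) : TT α ≠ 0 := mul_ne_zero Polynomial.X_ne_zero (pr_ne α _)

/-- the values of the polylogarithms -/
noncomputable def vL {n : ℕ} (α : Fin n → ℤ) (W m : ℕ) (v : Fin n × Fin W) : ℂ :=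
  ((∑' k : ℕ, ((α v.1 : ℝ) / m) ^ (k + 1) / ((k : ℝ) + 1) ^ ((v.2 : ℕ) + 1) : ℝ) : ℂ)

lemma ev_li (a : ℤ) (s : ℕ) (m : ℝ) : ev m (li a (s + 1)) = ∑' k : ℕ, ((a : ℝ) / m) ^ (k + 1) / ((k : ℝ) + 1) ^ (s + 1) := by
  unfold ev li
  have h : Function.support (fun k : ℕ => ((coeff k (PowerSeries.mk fun m : ℕ => (a : ℚ) ^ m / (m : ℚ) ^ (s + 1)) : ℚ) : ℝ) *
      (1 / m) ^ k) ⊆ Set.range Nat.succ := by
    intro k hk
    rcases k with _ | k
    · exfalso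
      apply hk
      simp
    · exact ⟨k, rfl⟩
  rw [← Function.Injective.tsum_eq Nat.succ_injective h]
  refine tsum_congr fun k => ?_
  simp only [coeff_mk, Nat.succ_eq_add_one]
  push_cast
  rw [div_pow, div_pow, one_pow]
  ring

/-- **Polylogarithms: at most `r + 1` exceptions in every separated set** -/
theorem polylog_sets (hGSP : S_GSP) (hQUP : S_QUP) (hINP : S_INP) {n : ℕ} (α : Fin n → ℤ) (hα : Function.Injective α)
    (h0 : ∀ i, α i ≠ 0) (W : ℕ) :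
    ∃ G : ℕ, 1 ≤ G ∧ ∀ k r δ D : ℕ, ∃ (c : ℝ) (M₀ : ℕ), 0 < c ∧ ∀ M : ℕ, M₀ ≤ M → ∀ θ : Fin r → ℂ,
      ∀ Ts : Finset ℕ, (∀ t ∈ Ts, M ≤ t ∧ (t : ℝ) ≤ M + (M : ℝ) ^ c) →
      (∀ t ∈ Ts, ∀ t' ∈ Ts, t ≠ t' → (G : ℤ) ≤ |(t : ℤ) - t'|) →
      ∃ S : Finset ℕ, S ⊆ Ts ∧ S.card ≤ r + 1 ∧ ∀ m : Fin k → ℕ, Function.Injective m → (∀ l, m l ∈ Ts \ S) →
        ∀ (K : IntermediateField ℚ ℂ) [FiniteDimensional ℚ K], finrank ℚ K ≤ D →
          ∀ P : MvPolynomial (Fin r ⊕ Fin k × Option (Fin n × Fin W)) K, (∀ x, P.degreeOf x ≤ δ) →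
            MvPolynomial.aeval (Sum.elim θ fun x => wl (vL α W) (m x.1) x.2) P = 0 → subst θ P = 0 := by
  classical
  set e := Fintype.equivFin (Option (Fin n × Fin W)) with he
  have hGF : GF (TT α) (fun i j => AA α W (e.symm i) (e.symm j)) (fun i => y α W (e.symm i)) := by
    refine ⟨TT_ne α, fun i => ?_, ?_, ?_⟩
    · rw [(hGSP n W α).1 (e.symm i)]
      exact (e.symm.sum_comp (fun o' => ps (AA α W (e.symm i) o') * y α W o')).symm
    · obtain ⟨q, C, h⟩ := (hGSP n W α).2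
      exact ⟨q, C, gsys_reindex e.symm h⟩
    · have h1 := qu_reindex e.symm (hQUP n W α)
      convert h1
  have hind : AlgebraicIndependent (Polynomial ℚ) (fun v : Fin n × Fin W => y α W (e.symm (e (some v)))) := by
    simp only [Equiv.symm_apply_apply]
    exact hINP n W α hα h0
  refine Pool.Agent.P8H40.CY.sets hGF (fun v => e (some v)) hind (n := 1) one_pos (vL α W) 0 fun m _ v => ?_
  refine ⟨1, one_ne_zero, ⟨1, by simp⟩, ?_⟩
  rw [one_mul]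
  unfold hv
  simp only [Equiv.symm_apply_apply]
  show ((ev (m : ℝ) (li (α v.1) (v.2 + 1)) : ℝ) : ℂ) = _
  rw [ev_li]
  rfl

end Pool.Agent.P8H40.PL
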