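import Pool.Agent.Y124.TL.Ba
import Pool.Agent.Y119.ML.Der
import Pool.Agent.Y119.ML.LI
import Pool.Agent.Y119.ML.Frac

/-!
# Polylogarithms at the points of a separated set: statements of the packages

The theorem `Pool.Agent.P8H40.CY.sets` applied to the family `1, Li_s(α_i x)`, `s ≤ W`.
-/

set_option autoImplicit false

open PowerSeries Pool.Agent.Y113 Pool.Agent.Y120.GF Pool.Agent.Y120.GH

namespace Pool.Agent.P8H40.PL

/-- `Li_s(a x) = ∑_(m ≥ 1) a^m x^m / m^s`, `s ≥ 1` (the coefficient at `x^0` is `1 / 0 = 0`) -/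
noncomputable def li (a : ℤ) (s : ℕ) : ℚ⟦X⟧ := PowerSeries.mk fun m => (a : ℚ) ^ m / (m : ℚ) ^ s

/-- the family `1`, `Li_(s+1)(α_i x)`, `s < W` -/
noncomputable def y {n : ℕ} (α : Fin n → ℤ) (W : ℕ) (o : Option (Fin n × Fin W)) : ℚ⟦X⟧ :=
  o.elim 1 fun v => li (α v.1) (v.2 + 1)

/-- `∏_i (1 - α_i x)` over the set `s` -/
noncomputable def pr {n : ℕ} (α : Fin n → ℤ) (s : Finset (Fin n)) : Polynomial ℤ :=
  ∏ i ∈ s, (1 - Polynomial.C (α i) * Polynomial.X)

/-- the denominator -/
noncomputable def TT {n : ℕ} (α : Fin n → ℤ) : Polynomial ℤ := Polynomial.X * pr α Finset.univ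

open Classical in
/-- the matrix of the system: `TT y' = AA y` -/
noncomputable def AA {n : ℕ} (α : Fin n → ℤ) (W : ℕ) : Option (Fin n × Fin W) → Option (Fin n × Fin W) → Polynomial ℤ
  | none, _ => 0
  | some v, none => if (v.2 : ℕ) = 0 then Polynomial.C (α v.1) * (Polynomial.X * pr α (Finset.univ.erase v.1)) else 0
  | some v, some v' => if v.1 = v'.1 ∧ (v.2 : ℕ) = (v'.2 : ℕ) + 1 then pr α Finset.univ else 0

/-- PACKAGE GSP (80 lines). The family is a G-system. The equation: coefficients (`X d/dX li a (s+1) = li a s` for `s ≥ 1`,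
`(1 - a X) d/dX li a 1 = a`). `size`, `den`: the coefficient at `m` is `a^m / m^(s+1)`, denominators
`lcm(1, …, m)^(s+1)` (as for `Pool.Agent.Y119.ML.SDp_In`, `SDE_LL`; or `Pool.Agent.Y119.ML.SDE_fam` with `g = 0`); `der`:
induction on `s` with `Pool.Agent.Y119.ML.der_int` (the set of the indices already treated: `none` and the `(i, s')`,
`s' < s`) and then `Pool.Agent.Y119.ML.common`, exactly as in `Pool.Agent.Y119.ML.gsys_ff`
(file `Pool/Agent/Y119/ML/Fam2.lean`) and `ff_der_cond` (file `Fam.lean`). -/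
def S_GSP : Prop := ∀ (n W : ℕ) (α : Fin n → ℤ),
  (∀ o, ps (TT α) * d⁄dX ℚ (y α W o) = ∑ o', ps (AA α W o o') * y α W o') ∧
  ∃ (q : ℕ) (C : ℝ), GSys q C (TT α) (y α W)

/-- PACKAGE QUP (80 lines). The monodromy at `0` is quasiunipotent. Take `e = 1`, `M = 0` and the fundamental matrix `Φ` (polynomials
in `log x` with power series coefficients; the coefficient of `(log x)^k` is `(Φ i j).coeff k`): `Φ none none = 1`,
`Φ none (some _) = 0`, `Φ (some v) none = li (α v.1) (v.2+1)`, mapped to `ℂ`, constant in the logarithm,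
`Φ (some (i,s)) (some (i',s')) = (log x)^(s-s') / (s-s')!` if `i = i'` and `s' ≤ s`, and `0` otherwise. It is triangular with
`1` on the diagonal (`Matrix.det_of_lowerTriangular`-like for a suitable order, or show that it has the inverse with `(-1)^(s-s')`,
or `Matrix.det` of a block matrix); the equations are immediate. -/
def S_QUP : Prop := ∀ (n W : ℕ) (α : Fin n → ℤ), QU0 (TT α) (AA α W)

/-- PACKAGE INP (150 lines). The polylogarithms are algebraically independent. `Pool.Agent.Y119.ML.graded_indep` with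
`F = Pool.Agent.Y119.ML.FF`, `D = eul`, `K = KF`, the forms `u none = uf 0 = 1`, `u (some i) = uf (α i)` (`= - α X / (1 - α X)`), the
condition `hprim` is `Pool.Agent.Y119.ML.prim`; the family: the monomials `∏_v li_v^(e v)` with `∑ e v ≤ N`, of degree
`∑_v (v.2 + 1) e v` (the derivative replaces a factor `Li_(s+1)` by `Li_s`, or `Li_1(α_i x)` by `- uf (α i)`); the condition `hnd`: a form
`∑ l_e X^e` with constant coefficients with `∂/∂X_(i,0) = 0` for all `i` and `∑_v X_(i,s) ∂/∂X_(i,s+1) = 0` is constant: it does not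
contain the `X_(i,0)`, so comparing the coefficients of `X_(i,0)` in the second equation it does not contain the `X_(i,1)`, etc. -/
def S_INP : Prop := ∀ (n W : ℕ) (α : Fin n → ℤ), Function.Injective α → (∀ i, α i ≠ 0) →
  AlgebraicIndependent (Polynomial ℚ) (fun v : Fin n × Fin W => li (α v.1) (v.2 + 1))

end Pool.Agent.P8H40.PL
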